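import Pool.Agent.H830Z.CoHopfF

namespace Pool.Agent.Results.MP_ce3880_al.ExtensionFG

/-- A finitely generated group that is not co-hopfian, with a co-hopfian subgroup of index two. -/
theorem result : ∃ (G : Type) (_ : Group G) (H : Subgroup G), Group.FG G ∧ H.index = 2 ∧
    (∀ f : H →* H, Function.Injective f → Function.Surjective f) ∧
    ¬ ∀ f : G →* G, Function.Injective f → Function.Surjective f :=
  ⟨H830Z.CoHopf.G, inferInstance, H830Z.CoHopf.T, H830Z.CoHopf.G_fg, H830Z.CoHopf.T_index,
    H830Z.CoHopf.T_cohopf, H830Z.CoHopf.G_not_cohopf⟩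

end Pool.Agent.Results.MP_ce3880_al.ExtensionFG
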